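import Mathlib

set_option autoImplicit false

/-!
MP_8a5e40_gt: an upper bound for the discrete factor.

If an `ℝ`-factorizable group `G` is homeomorphic to `H × D` with `H` a topological group and `D`
an uncountable discrete space, then `|D| < cof([χ(H)]^ω)`. In particular there is no such `G`
when the character of `H` is at most `ℵ₁`.
-/

namespace Pool.Agent.Results.MP_8a5e40_gt.CardinalBound

open Set Topology Filter Cardinal

/-- `G` is `ℝ`-factorizable: every continuous real function on `G` factors through a continuous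
homomorphism to a second-countable Hausdorff topological group. -/
def RFactorizable (G : Type) [Group G] [TopologicalSpace G] : Prop :=
  ∀ f : G → ℝ, Continuous f →
    ∃ (K : Type) (_ : Group K) (_ : TopologicalSpace K) (_ : IsTopologicalGroup K)
      (_ : T2Space K) (_ : SecondCountableTopology K) (h : G →* K) (g : K → ℝ),
      Continuous h ∧ Continuous g ∧ f = g ∘ h

section

variable {G : Type} [Group G] [TopologicalSpace G]

/-- every function factoring through a second-countable group is controlled by countably many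
neighbourhoods of the identity, the same at all points -/
theorem exists_seq (hG : RFactorizable G) (f : G → ℝ) (hf : Continuous f) :
    ∃ V : ℕ → Set G, (∀ n, V n ∈ 𝓝 (1 : G)) ∧
      ∀ x : G, ∀ ε > 0, ∃ n, ∀ y ∈ V n, |f (x * y) - f x| < ε := by
  obtain ⟨K, _, _, _, _, _, h, g, hh, hg, rfl⟩ := hG f hf
  obtain ⟨W, hW⟩ := (𝓝 (1 : K)).exists_antitone_basis
  refine ⟨fun n => h ⁻¹' W n, fun n => ?_, fun x ε hε => ?_⟩
  · apply hh.continuousAt.preimage_mem_nhds
    rw [map_one]
    exact hW.1.mem_of_mem trivial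
  · have h1 : Tendsto (fun k : K => g (h x * k)) (𝓝 1) (𝓝 (g (h x))) := by
      have : Continuous (fun k : K => g (h x * k)) := by fun_prop
      simpa using this.tendsto 1
    obtain ⟨n, -, hn⟩ := hW.1.mem_iff.1 (h1 (Metric.ball_mem_nhds _ hε))
    refine ⟨n, fun y hy => ?_⟩
    have := hn hy
    rw [mem_preimage, Metric.mem_ball, Real.dist_eq] at this
    simpa using this

variable [IsTopologicalGroup G]

/-- separation of the identity from the complement of a neighbourhood -/
theorem exists_fun (U : Set G) (hU : U ∈ 𝓝 (1 : G)) :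
    ∃ φ : G → ℝ, Continuous φ ∧ φ 1 = 0 ∧ ∀ y, y ∉ U → φ y = 1 := by
  have : CompletelyRegularSpace G :=
    CompletelyRegularSpace.of_exists_uniformSpace ⟨IsTopologicalGroup.rightUniformSpace G, rfl⟩
  obtain ⟨f, hf, hf0, hf1⟩ := CompletelyRegularSpace.completely_regular (1 : G) (interior U)ᶜ
    isOpen_interior.isClosed_compl (fun h => h (mem_interior_iff_mem_nhds.2 hU))
  refine ⟨fun y => (f y : ℝ), continuous_subtype_val.comp hf, by simp [hf0], fun y hy => ?_⟩
  have := hf1 (fun h => hy (interior_subset h) : y ∈ (interior U)ᶜ)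
  simp [this]

/-- `ℝ`-factorizable groups are `ω`-narrow, in the form needed here. -/
theorem narrow (hG : RFactorizable G) (V : Set G) (hV : V ∈ 𝓝 (1 : G))
    {T : Type} [Uncountable T] (x : T → G) : ∃ s t : T, s ≠ t ∧ (x s)⁻¹ * x t ∈ V := by
  obtain ⟨φ, hφ, hφ0, hφ1⟩ := exists_fun V hV
  obtain ⟨K, _, _, _, _, _, h, g, hh, hg, hfac⟩ := hG φ hφ
  have hW : {k : K | g k < 1} ∈ 𝓝 (1 : K) := by
    apply (isOpen_lt hg continuous_const).mem_nhds
    have : g (h 1) = 0 := by rw [← hφ0, hfac]; rfl
    rw [map_one] at this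
    show g 1 < 1
    rw [this]; norm_num
  have hdiv : ∀ᶠ q : K × K in 𝓝 (1 : K) ×ˢ 𝓝 (1 : K), g (q.1⁻¹ * q.2) < 1 := by
    rw [← nhds_prod_eq]
    have hc : Continuous (fun q : K × K => q.1⁻¹ * q.2) := by fun_prop
    have : Tendsto (fun q : K × K => q.1⁻¹ * q.2) (𝓝 ((1 : K), (1 : K))) (𝓝 1) := by
      simpa using hc.tendsto ((1 : K), (1 : K))
    exact this hW
  obtain ⟨W', hW'1, hW'2⟩ :=
    (eventually_prod_self_iff (r := fun a b : K => g (a⁻¹ * b) < 1)).1 hdiv
  have hcov : ∀ k : K, (fun y => k * y) '' W' ∈ 𝓝 k := by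
    intro k
    rw [← map_mul_left_nhds_one k]
    exact image_mem_map hW'1
  obtain ⟨S, hS, hSu⟩ := TopologicalSpace.countable_cover_nhds hcov
  have hi : ∀ t : T, ∃ k : S, h (x t) ∈ (fun y => (k : K) * y) '' W' := by
    intro t
    have : h (x t) ∈ ⋃ k ∈ S, (fun y => k * y) '' W' := by rw [hSu]; trivial
    simp only [mem_iUnion] at this
    obtain ⟨k, hk, hk2⟩ := this
    exact ⟨⟨k, hk⟩, hk2⟩
  choose i hi using hi
  by_contra hcon
  push Not at hcon
  have hinj : Function.Injective i := by
    intro s t hst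
    by_contra hne
    apply hcon s t hne
    obtain ⟨a, ha, ha2⟩ := hi s
    obtain ⟨b, hb, hb2⟩ := hi t
    by_contra hnV
    have h1 := hφ1 _ hnV
    have h2 : φ ((x s)⁻¹ * x t) = g (a⁻¹ * b) := by
      rw [hfac]
      show g (h ((x s)⁻¹ * x t)) = _
      rw [map_mul, map_inv, ← ha2, ← hb2, hst]
      congr 1
      group
    have h3 := hW'2 a ha b hb
    linarith
  have : Countable S := hS.to_subtype
  have := hinj.countable
  exact not_countable (α := T) this

/-- The main theorem: a bound for the size of discrete images. -/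
theorem main (hG : RFactorizable G) {D : Type} [TopologicalSpace D]
    [DiscreteTopology D] [Uncountable D] (p : G → D) (hp : Continuous p)
    (hps : Function.Surjective p) {ι κ : Type} (B : ι → Set G)
    (hB : (𝓝 (1 : G)).HasBasis (fun _ => True) B) (C : κ → Set ι) (hC : ∀ k, (C k).Countable)
    (hcof : ∀ S : Set ι, S.Countable → ∃ k, S ⊆ C k) : #D < #κ := by
  by_contra hle
  push Not at hle
  have hκ : Nonempty κ := ⟨(hcof ∅ countable_empty).choose⟩
  obtain ⟨emb⟩ := Cardinal.le_def κ D |>.1 hle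
  let σ : D → κ := Function.invFun emb
  have hσ : Function.Surjective σ := Function.invFun_surjective emb.injective
  choose x hx using hps
  have hO : ∀ d, {y | p (x d * y) = d} ∈ 𝓝 (1 : G) := by
    intro d
    have hc : Continuous (fun y => p (x d * y)) := by fun_prop
    have : IsOpen {y | p (x d * y) = d} := (isOpen_discrete {d}).preimage hc
    apply this.mem_nhds
    show p (x d * 1) = d
    rw [mul_one, hx]
  by_cases hfc : (𝓝 (1 : G)).IsCountablyGenerated
  · obtain ⟨V, hV⟩ := (𝓝 (1 : G)).exists_antitone_basis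
    have hn : ∀ d, ∃ n, V n ⊆ {y | p (x d * y) = d} := by
      intro d
      obtain ⟨n, -, hn⟩ := hV.1.mem_iff.1 (hO d)
      exact ⟨n, hn⟩
    choose n hn using hn
    have : ∃ m, Uncountable (n ⁻¹' {m}) := by
      by_contra hcon
      push Not at hcon
      have h1 : (⋃ m, n ⁻¹' {m}).Countable := countable_iUnion fun m => by
        have := hcon m
        exact to_countable _
      have h2 : (⋃ m, n ⁻¹' {m}) = (Set.univ : Set D) := by
        ext d; simp
      rw [h2, countable_univ_iff] at h1
      exact not_countable (α := D) h1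
    obtain ⟨m, hm⟩ := this
    obtain ⟨s, t, hst, hst2⟩ := narrow hG (V m) (hV.1.mem_of_mem trivial)
      (fun s : ↥(n ⁻¹' {m}) => x (s : D))
    have hs : n (s : D) = m := s.2
    have h3 := hn (s : D)
    rw [hs] at h3
    have h4 : p (x s * ((x s)⁻¹ * x t)) = s := h3 hst2
    rw [mul_inv_cancel_left, hx] at h4
    exact hst (Subtype.ext h4.symm)
  · have hU : ∀ d, ∃ U ∈ 𝓝 (1 : G), ∀ i ∈ C (σ d), ¬ (B i ∩ {y | p (x d * y) = d} ⊆ U) := by
      intro d
      by_contra hcon
      push Not at hcon
      apply hfc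
      have hb : (𝓝 (1 : G)).HasBasis (fun i => i ∈ C (σ d))
          (fun i => B i ∩ {y | p (x d * y) = d}) := by
        refine ⟨fun t => ⟨fun ht => ?_, fun ⟨i, hi, hit⟩ => ?_⟩⟩
        · obtain ⟨i, hi, hit⟩ := hcon t ht
          exact ⟨i, hi, hit⟩
        · exact mem_of_superset (inter_mem (hB.mem_of_mem trivial) (hO d)) hit
      exact (⟨hb, hC _⟩ : HasCountableBasis _ _ _).isCountablyGenerated
    choose U hU1 hU2 using hU
    have hφ := fun d => exists_fun (U d) (hU1 d)
    choose φ hφc hφ0 hφ1 using hφ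
    let f : G → ℝ := fun z => φ (p z) ((x (p z))⁻¹ * z)
    have hf : Continuous f := by
      rw [continuous_iff_continuousAt]
      intro z
      have h1 : ContinuousAt (fun w => φ (p z) ((x (p z))⁻¹ * w)) z := by
        have := hφc (p z)
        fun_prop
      apply h1.congr
      have h2 : p ⁻¹' {p z} ∈ 𝓝 z := ((isOpen_discrete {p z}).preimage hp).mem_nhds rfl
      filter_upwards [h2] with w hw
      have hw' : p w = p z := hw
      simp only [f, hw']
    obtain ⟨V, hV1, hV2⟩ := exists_seq hG f hf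
    have hi : ∀ m, ∃ i, B i ⊆ V m := fun m => by
      obtain ⟨i, -, hi⟩ := hB.mem_iff.1 (hV1 m)
      exact ⟨i, hi⟩
    choose i hi using hi
    obtain ⟨k, hk⟩ := hcof (range i) (countable_range i)
    obtain ⟨d, rfl⟩ := hσ k
    obtain ⟨m, hm⟩ := hV2 (x d) 1 one_pos
    have h1 := hU2 d (i m) (hk (mem_range_self m))
    rw [not_subset] at h1
    obtain ⟨y, ⟨hy1, hy2⟩, hy3⟩ := h1
    have hy2' : p (x d * y) = d := hy2
    have h2 := hm y (hi m hy1)
    have h3 : f (x d * y) = 1 := by
      simp only [f, hy2', inv_mul_cancel_left]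
      exact hφ1 d y hy3
    have h4 : f (x d) = 0 := by
      simp only [f, hx, inv_mul_cancel]
      exact hφ0 d
    rw [h3, h4] at h2
    norm_num at h2

end

/-- The index set: all countable ordinals. -/
abbrev Om : Type := (Cardinal.aleph 1).ord.ToType

theorem mk_Om : #Om = ℵ_ 1 := Cardinal.mk_ord_toType _

theorem ctbl_Om (a : Om) : (Iio a).Countable := by
  rw [← Cardinal.le_aleph0_iff_set_countable]
  have := Cardinal.mk_Iio_toType_ord_lt (c := ℵ_ 1) a
  rw [← Order.lt_succ_iff]
  rwa [Cardinal.succ_aleph0]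

theorem bdd_Om (C : Set Om) (hC : C.Countable) : ∃ b, ∀ c ∈ C, c < b := by
  by_contra hcon
  push Not at hcon
  have h1 : (Set.univ : Set Om) ⊆ ⋃ c ∈ C, Iic c := by
    intro b _
    obtain ⟨c, hc, hbc⟩ := hcon b
    simp only [mem_iUnion]
    exact ⟨c, hc, hbc⟩
  have h2 : (⋃ c ∈ C, Iic c).Countable := by
    refine hC.biUnion (fun c _ => ?_)
    have : Iic c = insert c (Iio c) := by
      ext x; simp [le_iff_eq_or_lt]
    rw [this]
    exact (ctbl_Om c).insert c
  have h3 := (h2.mono h1)
  rw [Set.countable_univ_iff] at h3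
  have h4 : #Om ≤ ℵ₀ := Cardinal.mk_le_aleph0_iff.2 h3
  rw [mk_Om] at h4
  exact absurd h4 (not_le.2 Cardinal.aleph0_lt_aleph_one)

theorem bound {G H D ι κ : Type} [Group G] [TopologicalSpace G] [IsTopologicalGroup G]
    (hG : RFactorizable G) [Group H] [TopologicalSpace H] [IsTopologicalGroup H]
    [TopologicalSpace D] [DiscreteTopology D] [Uncountable D] (e : G ≃ₜ H × D)
    (B : ι → Set H) (hB : (𝓝 (1 : H)).HasBasis (fun _ => True) B)
    (C : κ → Set ι) (hC : ∀ k, (C k).Countable)
    (hcof : ∀ S : Set ι, S.Countable → ∃ k, S ⊆ C k) : #D < #κ := by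
  have h1 := hB.map (fun h : H => (e 1).1 * h)
  rw [map_mul_left_nhds_one] at h1
  have h2 := h1.prod (hasBasis_pure (e 1).2)
  rw [← nhds_discrete D, ← nhds_prod_eq] at h2
  have h3 := h2.comap e
  have h4 : comap e (𝓝 ((e 1).1, (e 1).2)) = 𝓝 (1 : G) := (e.isInducing.nhds_eq_comap 1).symm
  rw [h4] at h3
  refine main hG (fun g => (e g).2) (by fun_prop) (fun d => ?_)
    (fun i => e ⁻¹' (((fun h : H => (e 1).1 * h) '' B i) ×ˢ {(e 1).2})) ?_ C hC hcof
  · exact ⟨e.symm (1, d), by simp⟩
  · refine ⟨fun t => ?_⟩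
    rw [h3.mem_iff]
    simp

/-- Let `G` be an `ℝ`-factorizable group homeomorphic to `H × D`, where `H` is a topological group
and `D` is an uncountable discrete space. Let `B` be a base of neighbourhoods of the identity of
`H`, indexed by `ι`, and let `C` be a family, indexed by `κ`, of countable subsets of `ι` such
that every countable subset of `ι` is contained in a member of `C`. Then `|D| < |κ|`; in
particular (take `κ = ω₁` if `|ι| ≤ ℵ₁`) `ℵ₁ < |ι|`. -/
theorem result {G H D ι κ : Type} [Group G] [TopologicalSpace G] [IsTopologicalGroup G]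
    [T2Space G] (hG : RFactorizable G) [Group H] [TopologicalSpace H] [IsTopologicalGroup H]
    [TopologicalSpace D] [DiscreteTopology D] [Uncountable D] (e : G ≃ₜ H × D)
    (B : ι → Set H) (hB : (𝓝 (1 : H)).HasBasis (fun _ => True) B)
    (C : κ → Set ι) (hC : ∀ k, (C k).Countable)
    (hcof : ∀ S : Set ι, S.Countable → ∃ k, S ⊆ C k) : #D < #κ ∧ ℵ_ 1 < #ι := by
  refine ⟨bound hG e B hB C hC hcof, ?_⟩
  by_contra hle
  push Not at hle
  rw [← mk_Om] at hle
  obtain ⟨j⟩ := Cardinal.le_def ι Om |>.1 hle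
  have h1 := bound hG e B hB (fun a : Om => {i | j i < a})
    (fun a => (ctbl_Om a).preimage j.injective) (fun S hS => by
      obtain ⟨b, hb⟩ := bdd_Om (j '' S) (hS.image _)
      exact ⟨b, fun i hi => hb _ (mem_image_of_mem _ hi)⟩)
  rw [mk_Om, ← Cardinal.succ_aleph0, Order.lt_succ_iff, Cardinal.mk_le_aleph0_iff] at h1
  exact not_countable (α := D) h1

end Pool.Agent.Results.MP_8a5e40_gt.CardinalBound
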